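import Mathlib
import Pool.Agent.MorseGeo.FinalM

set_option autoImplicit false

namespace Pool.Agent.Results.MP_69f220_al.NilpotentMorse

open Pool.Agent.NilGeo Pool.Agent.MorseGeo

/-- Let `G` be a group such that, for the finite generating set `X`, the geodesic words over `X` and
inverses form a regular language, and let `K` be a subgroup of `G` for which there is `R` such that
every word `u` with value in `K`, all of whose subwords `s` satisfy `|s| ≤ 6 |s'|` for every word
`s'` with the same value as `s`, stays at distance at most `R` from `K`. If `K` is virtually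
nilpotent, then `K` is virtually abelian. -/
theorem result {G : Type*} [Group G] (X : Finset G)
    (hX : Subgroup.closure (X : Set G) = ⊤)
    (σ : Type*) [Fintype σ] (M : DFA ({x // x ∈ X} × Bool) σ)
    (hM : ∀ w : List ({x // x ∈ X} × Bool), M.eval w ∈ M.accept ↔
      ∀ v : List ({x // x ∈ X} × Bool),
        (v.map (fun p : {x // x ∈ X} × Bool => if p.2 = true then p.1.1 else p.1.1⁻¹)).prod =
        (w.map (fun p : {x // x ∈ X} × Bool => if p.2 = true then p.1.1 else p.1.1⁻¹)).prod →
        w.length ≤ v.length)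
    (K : Subgroup G) (hK : Group.IsVirtuallyNilpotent ↥K) (R : ℕ)
    (hR : ∀ u : List ({x // x ∈ X} × Bool),
      (u.map (fun p : {x // x ∈ X} × Bool => if p.2 = true then p.1.1 else p.1.1⁻¹)).prod ∈ K →
      (∀ u₁ s u₃ : List ({x // x ∈ X} × Bool), u₁ ++ s ++ u₃ = u →
        ∀ s' : List ({x // x ∈ X} × Bool),
          (s'.map (fun p : {x // x ∈ X} × Bool => if p.2 = true then p.1.1 else p.1.1⁻¹)).prod =
          (s.map (fun p : {x // x ∈ X} × Bool => if p.2 = true then p.1.1 else p.1.1⁻¹)).prod →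
          s.length ≤ 6 * s'.length) →
      ∀ u₁ u₂ : List ({x // x ∈ X} × Bool), u₁ ++ u₂ = u →
        ∃ t : List ({x // x ∈ X} × Bool), t.length ≤ R ∧
          (u₁.map (fun p : {x // x ∈ X} × Bool => if p.2 = true then p.1.1 else p.1.1⁻¹)).prod *
          (t.map (fun p : {x // x ∈ X} × Bool => if p.2 = true then p.1.1 else p.1.1⁻¹)).prod ∈ K) :
    ∃ A : Subgroup ↥K, A.FiniteIndex ∧ IsMulCommutative A := by
  classical
  set f : {x // x ∈ X} × Bool → G := fun p => if p.2 = true then p.1.1 else p.1.1⁻¹ with hf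
  have hsym : ∀ a, ∃ b, f b = (f a)⁻¹ := by
    rintro ⟨x, b⟩
    refine ⟨(x, !b), ?_⟩
    cases b <;> simp [hf]
  have hsurj : ∀ g, ∃ w, val f w = g := by
    intro g
    have hg : g ∈ Subgroup.closure (X : Set G) := by rw [hX]; exact Subgroup.mem_top g
    induction hg using Subgroup.closure_induction with
    | mem x hx => exact ⟨[(⟨x, hx⟩, true)], by simp [val, hf]⟩
    | one => exact ⟨[], rfl⟩
    | mul x y _ _ hx hy =>
      obtain ⟨w, hw⟩ := hx
      obtain ⟨u, hu⟩ := hy
      exact ⟨w ++ u, by rw [val_append, hw, hu]⟩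
    | inv x _ hx =>
      obtain ⟨w, hw⟩ := hx
      rw [← hw]
      clear hw
      induction w with
      | nil => exact ⟨[], by simp⟩
      | cons a w ih =>
        obtain ⟨u, hu⟩ := ih
        obtain ⟨b, hb⟩ := hsym a
        exact ⟨u ++ [b], by rw [val_append, hu, val_singleton, hb, val_cons, mul_inv_rev]⟩
  have hQC : QC f K R := by
    intro u hu hs u₁ u₂ hu12
    obtain ⟨t, ht, htK⟩ := hR u hu (fun u₁ s u₃ h s' hs' => by
      refine (hs u₁ s u₃ h).trans (Nat.mul_le_mul_left 6 ?_)
      exact len_le f hs') u₁ u₂ hu12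
    exact ⟨val f t, (len_le f rfl).trans ht, htK⟩
  obtain ⟨A, hA1, hA2⟩ := mainM f hsym hsurj M hM K hK R hQC
  exact ⟨A, hA1, ⟨⟨fun a b => Subtype.ext (hA2 a a.2 b b.2)⟩⟩⟩

end Pool.Agent.Results.MP_69f220_al.NilpotentMorse
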