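import Mathlib
import Pool.Agent.RegGeo.Main

set_option autoImplicit false

namespace Pool.Agent.Results.MP_69f220_al.RegularGeodesics

open Pool.Agent.RegGeo

/-- If the geodesic words over a finite generating set `X` of `G` form a language accepted by a
deterministic automaton with `N` states, then `G` is finitely presented, and every word of length
`n` over `X` and inverses which is trivial in `G` is, in the free group on `X`, a product of at most
`2 ^ (15 N) * exp (4 N (log n) ^ 2)` conjugates of trivial words of length less than `2 N`. -/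
theorem result {G : Type*} [Group G] (X : Finset G) (hX : Subgroup.closure (X : Set G) = ⊤)
    (σ : Type*) [Fintype σ] (M : DFA ({x // x ∈ X} × Bool) σ)
    (hM : ∀ w : List ({x // x ∈ X} × Bool), M.eval w ∈ M.accept ↔
      ∀ v : List ({x // x ∈ X} × Bool),
        (v.map (fun p : {x // x ∈ X} × Bool => if p.2 = true then p.1.1 else p.1.1⁻¹)).prod =
        (w.map (fun p : {x // x ∈ X} × Bool => if p.2 = true then p.1.1 else p.1.1⁻¹)).prod →
        w.length ≤ v.length) :
    Group.IsFinitelyPresented G ∧
    ∀ w : List ({x // x ∈ X} × Bool),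
      (w.map (fun p : {x // x ∈ X} × Bool => if p.2 = true then p.1.1 else p.1.1⁻¹)).prod = 1 →
      ∃ l : List (FreeGroup {x // x ∈ X}),
        (l.length : ℝ) ≤ 2 ^ (15 * Fintype.card σ) *
          Real.exp (4 * Fintype.card σ * (Real.log w.length) ^ 2) ∧
        (∀ y ∈ l, ∃ (c : FreeGroup {x // x ∈ X}) (r : List ({x // x ∈ X} × Bool)),
          r.length < 2 * Fintype.card σ ∧
          (r.map (fun p : {x // x ∈ X} × Bool =>
            if p.2 = true then p.1.1 else p.1.1⁻¹)).prod = 1 ∧
          y = c * FreeGroup.mk r * c⁻¹) ∧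
        l.prod = FreeGroup.mk w := by
  classical
  have hM' : ∀ w, M.eval w ∈ M.accept ↔ Geo (fun x : {x // x ∈ X} => x.1) w := hM
  have hsurj : Function.Surjective (FreeGroup.lift (fun x : {x // x ∈ X} => x.1)) := by
    rw [← MonoidHom.range_eq_top, FreeGroup.range_lift_eq_closure, Subtype.range_coe_subtype]
    exact hX
  refine ⟨finPres _ hsurj M hM', fun w hw => ?_⟩
  obtain ⟨l, h1, h2, h3⟩ := fill_main _ M hM' w.length w le_rfl hw
  refine ⟨l, ?_, h2, h3⟩
  calc (l.length : ℝ) ≤ (⌊(2 : ℝ) ^ (15 * Fintype.card σ) *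
        Real.exp (4 * Fintype.card σ * (Real.log w.length) ^ 2)⌋₊ : ℕ) := by exact_mod_cast h1
    _ ≤ _ := Nat.floor_le (by positivity)

end Pool.Agent.Results.MP_69f220_al.RegularGeodesics
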